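import Pool.Agent.Helper12.Ball.M7Expand

/-!
Ball quotient type, module M7: exterior invariants of a product of orthogonal groups.
-/

namespace Pool.Agent.Ball

open Module Equiv Pool.Agent.Helper7

namespace M7

section

variable {Φ W : Type} [DecidableEq Φ] [AddCommGroup W] [Module ℂ W]
    {m k : ℕ} (b : Basis (Φ × Fin m × Bool) ℂ W)
    (R : Φ → Fin m → Fin m → Module.End ℂ W)
    (hR : ∀ s i j, i ≠ j → ∀ (t : Φ) (l : Fin m) (ε : Bool), R s i j (b (t, l, ε)) =
      if t = s ∧ l = i then - b (s, j, ε) else if t = s ∧ l = j then b (s, i, ε) else 0)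
    (α : W [⋀^Fin (2 * k)]→ₗ[ℂ] ℂ)
    (hα : ∀ s i j, i ≠ j → ∀ v : Fin (2 * k) → W,
      ∑ r, α (Function.update v r (R s i j (v r))) = 0)

include hR in
lemma R_i {s : Φ} {i j : Fin m} (hij : i ≠ j) (ε : Bool) :
    R s i j (b (dup (s, i) ε)) = - b (dup (s, j) ε) := by
  have := hR s i j hij s i ε
  rw [if_pos ⟨rfl, rfl⟩] at this
  exact this

include hR in
lemma R_j {s : Φ} {i j : Fin m} (hij : i ≠ j) (ε : Bool) :
    R s i j (b (dup (s, j) ε)) = b (dup (s, i) ε) := by
  have := hR s i j hij s j ε
  rw [if_neg (fun h => hij h.2.symm), if_pos ⟨rfl, rfl⟩] at this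
  exact this

include hR in
lemma R_0 {s : Φ} {i j : Fin m} (hij : i ≠ j) (x : Φ × Fin m × Bool)
    (h1 : ∀ ε, x ≠ dup (s, i) ε) (h2 : ∀ ε, x ≠ dup (s, j) ε) :
    R s i j (b x) = 0 := by
  obtain ⟨t, l, ε⟩ := x
  rw [hR s i j hij t l ε, if_neg, if_neg]
  · rintro ⟨rfl, rfl⟩; exact h2 ε rfl
  · rintro ⟨rfl, rfl⟩; exact h1 ε rfl

/-- the value of the form on a monomial -/
noncomputable def val (s : Fin (2 * k) → Φ × Fin m × Bool) : ℂ := α (fun r => b (s r))

omit [DecidableEq Φ] in
lemma upd_basis (s : Fin (2 * k) → Φ × Fin m × Bool) (r : Fin (2 * k)) (x : Φ × Fin m × Bool) :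
    Function.update (fun r => b (s r)) r (b x) = fun q => b (Function.update s r x q) := by
  funext q
  by_cases h : q = r
  · subst h; simp
  · rw [Function.update_of_ne h, Function.update_of_ne h]

omit [DecidableEq Φ] in
lemma val_zero (s : Fin (2 * k) → Φ × Fin m × Bool) (q r : Fin (2 * k)) (h : q ≠ r)
    (hs : s q = s r) : val b α s = 0 :=
  α.map_eq_zero_of_eq _ (congrArg b hs) h

include hR hα in
/-- a site of odd occupancy next to an empty site -/
lemma odd_empty (s : Fin (2 * k) → Φ × Fin m × Bool) (hs : Function.Injective s)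
    (q : Φ) (i j : Fin m) (hij : i ≠ j) (ε : Bool) (r₀ : Fin (2 * k))
    (h0 : s r₀ = dup (q, i) ε) (h1 : ∀ r, s r ≠ dup (q, i) (!ε))
    (h2 : ∀ r δ, s r ≠ dup (q, j) δ) : val b α s = 0 := by
  have h := hα q i j hij (fun r => b (Function.update s r₀ (dup (q, j) ε) r))
  rw [Finset.sum_eq_single r₀] at h
  · rw [Function.update_self, R_j b R hR hij, upd_basis] at h
    rw [val, ← h]
    congr 1
    funext r
    congr 1
    by_cases hr : r = r₀
    · subst hr; rw [Function.update_self, h0]
    · rw [Function.update_of_ne hr, Function.update_of_ne hr]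
  · intro r _ hr
    rw [Function.update_of_ne hr, R_0 b R hR hij (s r) _ (h2 r)]
    · exact α.map_update_zero _ _
    · intro δ hδ
      by_cases hd : δ = ε
      · subst hd
        exact hr (hs (hδ.trans h0.symm))
      · have : δ = !ε := by
          cases δ <;> cases ε <;> simp_all
        subst this
        exact h1 r hδ
  · intro h; exact absurd (Finset.mem_univ _) h

include hR hα in
/-- a site of odd occupancy next to a full site -/
lemma odd_full (s : Fin (2 * k) → Φ × Fin m × Bool) (hs : Function.Injective s)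
    (q : Φ) (i j : Fin m) (hij : i ≠ j) (ε : Bool) (r₀ r₁ r₂ : Fin (2 * k))
    (h0 : s r₀ = dup (q, i) ε) (h1 : ∀ r, s r ≠ dup (q, i) (!ε))
    (h3 : s r₁ = dup (q, j) ε) (h4 : s r₂ = dup (q, j) (!ε)) : val b α s = 0 := by
  have h02 : r₀ ≠ r₂ := by
    intro h; rw [h, h4, dup_inj] at h0
    exact hij (congrArg Prod.snd h0.1).symm
  have h12 : r₁ ≠ r₂ := by
    intro h; rw [h, h4, dup_inj] at h3
    exact absurd h3.2 (by cases ε <;> simp)
  have h01 : r₀ ≠ r₁ := by
    intro h; rw [h, h3, dup_inj] at h0
    exact hij (congrArg Prod.snd h0.1).symm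
  have h := hα q i j hij (fun r => b (Function.update s r₂ (dup (q, i) (!ε)) r))
  rw [Finset.sum_eq_single r₂] at h
  · rw [Function.update_self, R_i b R hR hij] at h
    have h5 : α (Function.update (fun r => b (Function.update s r₂ (dup (q, i) (!ε)) r)) r₂
        (- b (dup (q, j) (!ε)))) = - val b α s := by
      rw [AlternatingMap.map_update_neg, upd_basis, val]
      congr 2
      funext r
      congr 1
      by_cases hr : r = r₂
      · subst hr; rw [Function.update_self, h4]
      · rw [Function.update_of_ne hr, Function.update_of_ne hr]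
    rw [h5] at h
    exact neg_eq_zero.mp h
  · intro r _ hr
    rw [Function.update_of_ne hr]
    by_cases hr0 : r = r₀
    · subst hr0
      rw [h0, R_i b R hR hij, AlternatingMap.map_update_neg, upd_basis, neg_eq_zero]
      apply val_zero b α _ r r₁ h01
      rw [Function.update_self, Function.update_of_ne h01.symm, Function.update_of_ne h12, h3]
    by_cases hr1 : r = r₁
    · subst hr1
      rw [h3, R_j b R hR hij, upd_basis]
      apply val_zero b α _ r r₀ h01.symm
      rw [Function.update_self, Function.update_of_ne h01, Function.update_of_ne h02, h0]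
    rw [R_0 b R hR hij (s r)]
    · exact α.map_update_zero _ _
    · intro δ hδ
      by_cases hd : δ = ε
      · subst hd
        exact hr0 (hs (hδ.trans h0.symm))
      · have : δ = !ε := by
          cases δ <;> cases ε <;> simp_all
        subst this
        exact h1 r hδ
    · intro δ hδ
      by_cases hd : δ = ε
      · subst hd
        exact hr1 (hs (hδ.trans h3.symm))
      · have : δ = !ε := by
          cases δ <;> cases ε <;> simp_all
        subst this
        exact hr (hs (hδ.trans h4.symm))
  · intro h; exact absurd (Finset.mem_univ _) h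

include hR hα in
/-- moving a pair to an empty site -/
lemma move (p : Fin k → Φ × Fin m) (hp : Function.Injective p) (a : Fin k)
    (q : Φ) (i j : Fin m) (hij : i ≠ j) (h0 : p a = (q, i)) (h1 : ∀ c, p c ≠ (q, j)) :
    val b α (tup (Function.update p a (q, j))) = val b α (tup p) := by
  have h := hα q i j hij (fun r => b (Function.update (tup p) (lo a) (dup (q, j) false) r))
  have hne : lo a ≠ hi a := lo_ne_hi a a
  rw [Finset.sum_eq_add (lo a) (hi a) hne] at h
  · rw [Function.update_self, R_j b R hR hij, upd_basis, Function.update_of_ne hne.symm, tup_hi,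
      h0, R_i b R hR hij, AlternatingMap.map_update_neg, upd_basis] at h
    have h2 : (fun r => b (Function.update (Function.update (tup p) (lo a) (dup (q, j) false))
        (lo a) (dup (q, i) false) r)) = fun r => b (tup p r) := by
      funext r
      congr 1
      by_cases hr : r = lo a
      · subst hr; rw [Function.update_self, tup_lo, h0]
      · rw [Function.update_of_ne hr, Function.update_of_ne hr]
    have h3 : (fun r => b (Function.update (Function.update (tup p) (lo a) (dup (q, j) false))
        (hi a) (dup (q, j) true) r)) = fun r => b (tup (Function.update p a (q, j)) r) := by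
      funext r
      congr 1
      obtain ⟨c, rfl | rfl⟩ := eq_lo_or_hi r
      · rw [update_hi_lo, update_lo_lo, tup_lo, tup_lo]
        by_cases hc : c = a
        · subst hc; rw [if_pos rfl, Function.update_self]
        · rw [if_neg hc, Function.update_of_ne hc]
      · rw [update_hi_hi, update_lo_hi, tup_hi, tup_hi]
        by_cases hc : c = a
        · subst hc; rw [if_pos rfl, Function.update_self]
        · rw [if_neg hc, Function.update_of_ne hc]
    rw [h2, h3] at h
    rw [val, val]
    linear_combination -h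
  · intro r _ hr
    have hr0 : tup p r = Function.update (tup p) (lo a) (dup (q, j) false) r := by
      rw [Function.update_of_ne hr.1]
    rw [← hr0, R_0 b R hR hij (tup p r)]
    · exact α.map_update_zero _ _
    · intro δ hδ
      obtain ⟨c, rfl | rfl⟩ := eq_lo_or_hi r
      · rw [tup_lo, dup_inj, ← h0] at hδ
        exact hr.1 (congrArg lo (hp hδ.1))
      · rw [tup_hi, dup_inj, ← h0] at hδ
        exact hr.2 (congrArg hi (hp hδ.1))
    · intro δ hδ
      obtain ⟨c, rfl | rfl⟩ := eq_lo_or_hi r
      · rw [tup_lo, dup_inj] at hδ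
        exact h1 c hδ.1
      · rw [tup_hi, dup_inj] at hδ
        exact h1 c hδ.1
  · intro h; exact absurd (Finset.mem_univ _) h
  · intro h; exact absurd (Finset.mem_univ _) h

omit [DecidableEq Φ] in
/-- permuting two pairs -/
lemma swap_pairs (p : Fin k → Φ × Fin m) (a c : Fin k) :
    val b α (tup (p ∘ Equiv.swap a c)) = val b α (tup p) := by
  by_cases hac : a = c
  · subst hac; simp
  have h1 : tup (p ∘ Equiv.swap a c) =
      tup p ∘ (Equiv.swap (lo a) (lo c) * Equiv.swap (hi a) (hi c) : Perm (Fin (2 * k))) := by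
    funext r
    obtain ⟨d, rfl | rfl⟩ := eq_lo_or_hi r
    · rw [tup_lo, Function.comp, Function.comp, Equiv.Perm.mul_apply,
        Equiv.swap_apply_of_ne_of_ne (lo_ne_hi _ _) (lo_ne_hi _ _)]
      by_cases hd : d = a
      · subst hd; rw [Equiv.swap_apply_left, Equiv.swap_apply_left, tup_lo]
      by_cases hd' : d = c
      · subst hd'; rw [Equiv.swap_apply_right, Equiv.swap_apply_right, tup_lo]
      rw [Equiv.swap_apply_of_ne_of_ne hd hd', Equiv.swap_apply_of_ne_of_ne
        (fun h => hd (lo_inj h)) (fun h => hd' (lo_inj h)), tup_lo]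
    · rw [tup_hi, Function.comp, Function.comp, Equiv.Perm.mul_apply]
      by_cases hd : d = a
      · subst hd; rw [Equiv.swap_apply_left, Equiv.swap_apply_left,
          Equiv.swap_apply_of_ne_of_ne (lo_ne_hi _ _).symm (lo_ne_hi _ _).symm, tup_hi]
      by_cases hd' : d = c
      · subst hd'; rw [Equiv.swap_apply_right, Equiv.swap_apply_right,
          Equiv.swap_apply_of_ne_of_ne (lo_ne_hi _ _).symm (lo_ne_hi _ _).symm, tup_hi]
      rw [Equiv.swap_apply_of_ne_of_ne hd hd', Equiv.swap_apply_of_ne_of_ne
        (fun h => hd (hi_inj h)) (fun h => hd' (hi_inj h)),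
        Equiv.swap_apply_of_ne_of_ne (lo_ne_hi _ _).symm (lo_ne_hi _ _).symm, tup_hi]
  have h2 := α.map_perm (fun r => b (tup p r))
    (Equiv.swap (lo a) (lo c) * Equiv.swap (hi a) (hi c))
  rw [Equiv.Perm.sign_mul, Equiv.Perm.sign_swap (fun h => hac (lo_inj h)),
    Equiv.Perm.sign_swap (fun h => hac (hi_inj h)), neg_one_mul, neg_neg, one_smul] at h2
  rw [val, h1, val, ← h2]
  rfl

include hR hα in
/-- exchanging two sites over the same place -/
lemma exchange (p : Fin k → Φ × Fin m) (hp : Function.Injective p) (x y : Φ × Fin m)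
    (hxy : x.1 = y.1) :
    val b α (tup (fun a => Equiv.swap x y (p a))) = val b α (tup p) := by
  by_cases hne : x = y
  · subst hne; simp
  -- a lemma for one occupied site
  have one : ∀ x y : Φ × Fin m, x.1 = y.1 → x ≠ y → (∃ a, p a = x) → (∀ c, p c ≠ y) →
      val b α (tup (fun a => Equiv.swap x y (p a))) = val b α (tup p) := by
    rintro ⟨q, i⟩ ⟨q', j⟩ h1 h2 ⟨a, ha⟩ h4
    simp only at h1
    subst h1
    have hij : i ≠ j := fun h => h2 (by rw [h])
    rw [← move b R hR α hα p hp a q i j hij ha h4]
    congr 2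
    funext c
    by_cases hc : c = a
    · subst hc; rw [Function.update_self, ha, Equiv.swap_apply_left]
    · rw [Function.update_of_ne hc, Equiv.swap_apply_of_ne_of_ne]
      · intro h; exact hc (hp (h.trans ha.symm))
      · exact h4 c
  by_cases hx : ∃ a, p a = x
  · by_cases hy : ∃ c, p c = y
    · obtain ⟨a, ha⟩ := hx
      obtain ⟨c, hc⟩ := hy
      rw [← swap_pairs b α p a c]
      congr 2
      funext d
      by_cases hd : d = a
      · subst hd; simp [ha, hc]
      by_cases hd' : d = c
      · subst hd'; simp [ha, hc]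
      rw [Function.comp, Equiv.swap_apply_of_ne_of_ne hd hd', Equiv.swap_apply_of_ne_of_ne]
      · intro h; exact hd (hp (h.trans ha.symm))
      · intro h; exact hd' (hp (h.trans hc.symm))
    · push Not at hy
      exact one x y hxy hne hx hy
  · by_cases hy : ∃ c, p c = y
    · push Not at hx
      rw [Equiv.swap_comm]
      exact one y x hxy.symm (Ne.symm hne) hy hx
    · push Not at hx hy
      congr 2
      funext c
      exact Equiv.swap_apply_of_ne_of_ne (hx c) (hy c)

include hR hα in
/-- the value only depends on the places -/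
lemma places (p q : Fin k → Φ × Fin m) (hp : Function.Injective p) (hq : Function.Injective q)
    (h : ∀ a, (p a).1 = (q a).1) : val b α (tup p) = val b α (tup q) := by
  induction hn : (Finset.univ.filter (fun a => p a ≠ q a)).card using Nat.strong_induction_on
    generalizing p with
  | _ n ih =>
    by_cases hpq : p = q
    · rw [hpq]
    obtain ⟨a, ha⟩ := Function.ne_iff.mp hpq
    let p' : Fin k → Φ × Fin m := fun c => Equiv.swap (p a) (q a) (p c)
    have hp' : Function.Injective p' := fun x y hxy => hp ((Equiv.swap _ _).injective hxy)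
    have h' : ∀ c, (p' c).1 = (q c).1 := by
      intro c
      show (Equiv.swap (p a) (q a) (p c)).1 = _
      rw [Equiv.swap_apply_def]
      split_ifs with h1 h2
      · rw [← h c, ← h a, h1]
      · rw [← h c, h2, h a]
      · exact h c
    have hlt : (Finset.univ.filter (fun c => p' c ≠ q c)).card < n := by
      rw [← hn]
      apply Finset.card_lt_card
      rw [Finset.ssubset_iff_of_subset]
      · refine ⟨a, by simpa using ha, ?_⟩
        rw [Finset.mem_filter]
        intro hh
        apply hh.2
        show Equiv.swap (p a) (q a) (p a) = q a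
        rw [Equiv.swap_apply_left]
      · intro c hc
        rw [Finset.mem_filter] at hc ⊢
        refine ⟨Finset.mem_univ _, ?_⟩
        intro hcc
        apply hc.2
        show Equiv.swap (p a) (q a) (p c) = q c
        have h1 : c ≠ a := fun h1 => ha (h1 ▸ hcc)
        rw [Equiv.swap_apply_of_ne_of_ne, hcc]
        · intro h2; exact h1 (hp h2)
        · intro h2; rw [hcc] at h2; exact h1 (hq h2)
    rw [← ih _ hlt p' hp' h' rfl]
    exact (exchange b R hR α hα p hp (p a) (q a) (h a)).symm

end

/-- a monomial with all sites empty or full is paired -/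
lemma paired {Φ : Type} {m k : ℕ} (s : Fin (2 * k) → Φ × Fin m × Bool)
    (hs : Function.Injective s)
    (h : ∀ x : Φ × Fin m, (∃ r, s r = dup x false) ↔ (∃ r, s r = dup x true)) :
    ∃ (p : Fin k → Φ × Fin m) (π : Perm (Fin (2 * k))), Function.Injective p ∧
      s ∘ π = tup p := by
  classical
  let T := {x : Φ × Fin m // ∃ r, s r = dup x false}
  have hT : ∀ (x : T) (ε : Bool), ∃ r, s r = dup x.1 ε := by
    intro x ε
    cases ε
    · exact x.2
    · exact (h x.1).mp x.2
  choose g hg using hT
  have hgi : ∀ (x y : T) (ε δ : Bool), g x ε = g y δ → x = y ∧ ε = δ := by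
    intro x y ε δ hxy
    have h1 := congrArg s hxy
    rw [hg, hg, dup_inj] at h1
    exact ⟨Subtype.ext h1.1, h1.2⟩
  have hgb : Function.Bijective (fun x : T × Bool => g x.1 x.2) := by
    constructor
    · intro x y hxy
      have := hgi _ _ _ _ hxy
      exact Prod.ext this.1 this.2
    · intro r
      obtain ⟨ε, x, hx⟩ : ∃ ε x, s r = dup x ε := ⟨(s r).2.2, ((s r).1, (s r).2.1), rfl⟩
      have hxT : ∃ r, s r = dup x false := by
        cases ε
        · exact ⟨r, hx⟩
        · exact (h x).mpr ⟨r, hx⟩
      refine ⟨(⟨x, hxT⟩, ε), hs ?_⟩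
      show s (g ⟨x, hxT⟩ ε) = s r
      rw [hg, hx]
  haveI : Finite T := Finite.of_injective (fun x => g x false)
    (fun x y hxy => (hgi _ _ _ _ hxy).1)
  haveI : Fintype T := Fintype.ofFinite T
  have hc : Fintype.card T = k := by
    have h1 := Fintype.card_of_bijective hgb
    rw [Fintype.card_prod, Fintype.card_bool, Fintype.card_fin] at h1
    omega
  let e : Fin k ≃ T := (Fintype.equivFinOfCardEq hc).symm
  let π' : Fin (2 * k) → Fin (2 * k) := fun r => g (e ⟨r.1 / 2, by omega⟩)
    (decide (r.1 % 2 = 1))
  have hπ : Function.Injective π' := by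
    intro x y hxy
    have h1 := hgi _ _ _ _ hxy
    have h2 := congrArg Fin.val (e.injective h1.1)
    have h3 := h1.2
    rw [decide_eq_decide] at h3
    simp only at h2
    apply Fin.ext
    omega
  refine ⟨fun a => (e a).1, Equiv.ofBijective π' (Finite.injective_iff_bijective.mp hπ), ?_, ?_⟩
  · intro a c hac
    exact e.injective (Subtype.ext hac)
  · funext r
    show s (π' r) = _
    show s (g _ _) = _
    rw [hg]
    rfl

/-- counting: no place has sites of odd occupancy -/
lemma count {Φ : Type} [Fintype Φ] {m k : ℕ} (s : Fin (2 * k) → Φ × Fin m × Bool)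
    (hs : Function.Injective s)
    (h : ∀ (q : Φ) (i j : Fin m),
      ((∃ r, s r = dup (q, i) false) ↔ (∃ r, s r = dup (q, i) true)) →
      ((∃ r, s r = dup (q, j) false) ↔ (∃ r, s r = dup (q, j) true)))
    (hk : (if Even m then 2 * k < m else 2 * k < 2 * m) ∨
      (if Even m then 2 * (m * Fintype.card Φ) < 2 * k + m
        else 2 * (m * Fintype.card Φ) < 2 * k + 2 * m)) (x : Φ × Fin m) :
    (∃ r, s r = dup x false) ↔ (∃ r, s r = dup x true) := by
  classical
  by_contra hx
  obtain ⟨q₀, i₀⟩ := x
  let o : Φ × Fin m × Bool → ℕ := fun y => if ∃ r, s r = y then 1 else 0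
  have ho : ∀ y, o y ≤ 1 := by
    intro y
    simp only [o]
    split_ifs <;> simp
  let N : Φ → ℕ := fun q => ∑ i : Fin m, (o (q, i, false) + o (q, i, true))
  have hN : ∑ q, N q = 2 * k := by
    have h1 : ∑ y, o y = 2 * k := by
      simp only [o]
      rw [← Finset.card_filter]
      have h2 : Finset.univ.filter (fun y => ∃ r, s r = y) = Finset.univ.image s := by
        ext y; simp
      rw [h2, Finset.card_image_of_injective _ hs, Finset.card_univ, Fintype.card_fin]
    rw [← h1, Fintype.sum_prod_type]
    refine Finset.sum_congr rfl (fun q _ => ?_)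
    rw [Fintype.sum_prod_type]
    refine Finset.sum_congr rfl (fun i _ => ?_)
    rw [Fintype.sum_bool, add_comm]
  let good : Φ → Prop := fun q => ∀ i : Fin m,
    ((∃ r, s r = dup (q, i) false) ↔ (∃ r, s r = dup (q, i) true))
  have hbad : ∀ q, ¬ good q → N q = m := by
    intro q hq
    have h1 : ∀ i : Fin m, o (q, i, false) + o (q, i, true) = 1 := by
      intro i
      have h2 : ¬ ((∃ r, s r = dup (q, i) false) ↔ (∃ r, s r = dup (q, i) true)) := by
        intro h3
        exact hq (fun j => h q i j h3)
      simp only [dup] at h2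
      simp only [o]
      by_cases ha : ∃ r, s r = (q, i, false) <;> by_cases hb : ∃ r, s r = (q, i, true)
      · exact absurd ⟨fun _ => hb, fun _ => ha⟩ h2
      · rw [if_pos ha, if_neg hb]
      · rw [if_neg ha, if_pos hb]
      · exact absurd ⟨fun h => absurd h ha, fun h => absurd h hb⟩ h2
    simp only [N]
    rw [Finset.sum_congr rfl (fun i _ => h1 i)]
    simp
  have hgood : ∀ q, good q → Even (N q) := by
    intro q hq
    simp only [N]
    apply Finset.even_sum
    intro i _
    have h2 := hq i
    simp only [dup] at h2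
    simp only [o]
    by_cases ha : ∃ r, s r = (q, i, false)
    · rw [if_pos ha, if_pos (h2.mp ha)]; decide
    · rw [if_neg ha, if_neg (fun h => ha (h2.mpr h))]; decide
  have hle : ∀ q, N q ≤ 2 * m := by
    intro q
    simp only [N]
    calc ∑ i : Fin m, (o (q, i, false) + o (q, i, true)) ≤ ∑ _i : Fin m, 2 :=
          Finset.sum_le_sum (fun i _ => by have := ho (q, i, false); have := ho (q, i, true); omega)
      _ = 2 * m := by simp [mul_comm]
  have hq0 : ¬ good q₀ := fun h => hx (h i₀)
  have hN0 := hbad q₀ hq0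
  rw [← Finset.add_sum_erase _ _ (Finset.mem_univ q₀), hN0] at hN
  have hcard : (Finset.univ.erase q₀).card + 1 = Fintype.card Φ := by
    rw [Finset.card_erase_add_one (Finset.mem_univ _), Finset.card_univ]
  by_cases hm : Even m
  · rw [if_pos hm, if_pos hm] at hk
    have h1 : ∑ q ∈ Finset.univ.erase q₀, N q ≤ (Finset.univ.erase q₀).card * (2 * m) := by
      rw [← smul_eq_mul]
      exact Finset.sum_le_card_nsmul _ _ _ (fun q _ => hle q)
    rcases hk with hk | hk
    · omega
    · rw [← hcard] at hk
      nlinarith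
  · rw [if_neg hm, if_neg hm] at hk
    have h2 : ∃ q₁ ∈ Finset.univ.erase q₀, ¬ good q₁ := by
      by_contra hcon
      push Not at hcon
      have h3 : Even (∑ q ∈ Finset.univ.erase q₀, N q) :=
        Finset.even_sum _ (fun q hq => hgood q (hcon q hq))
      have h4 : Even (m + ∑ q ∈ Finset.univ.erase q₀, N q) := by
        rw [hN]; exact even_two_mul k
      rw [Nat.even_add] at h4
      exact hm (h4.mpr h3)
    obtain ⟨q₁, hq1, hb1⟩ := h2
    rw [← Finset.add_sum_erase _ _ hq1, hbad q₁ hb1] at hN
    have hcard2 : ((Finset.univ.erase q₀).erase q₁).card + 1 = (Finset.univ.erase q₀).card :=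
      Finset.card_erase_add_one hq1
    have h1 : ∑ q ∈ (Finset.univ.erase q₀).erase q₁, N q ≤
        ((Finset.univ.erase q₀).erase q₁).card * (2 * m) := by
      rw [← smul_eq_mul]
      exact Finset.sum_le_card_nsmul _ _ _ (fun q _ => hle q)
    rcases hk with hk | hk
    · omega
    · rw [← hcard, ← hcard2] at hk
      nlinarith

end M7

/-- M7.  Exterior invariants of a product of orthogonal groups, below the degree of the
determinants. -/
theorem M7 {Φ W : Type} [Fintype Φ] [DecidableEq Φ] [AddCommGroup W] [Module ℂ W]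
    {m k : ℕ} (b : Basis (Φ × Fin m × Bool) ℂ W)
    (R : Φ → Fin m → Fin m → Module.End ℂ W)
    (hR : ∀ s i j, i ≠ j → ∀ (t : Φ) (l : Fin m) (ε : Bool), R s i j (b (t, l, ε)) =
      if t = s ∧ l = i then - b (s, j, ε) else if t = s ∧ l = j then b (s, i, ε) else 0)
    (α : W [⋀^Fin (2 * k)]→ₗ[ℂ] ℂ)
    (hα : ∀ s i j, i ≠ j → ∀ v : Fin (2 * k) → W,
      ∑ r, α (Function.update v r (R s i j (v r))) = 0)
    (hk : (if Even m then 2 * k < m else 2 * k < 2 * m) ∨
      (if Even m then 2 * (m * Fintype.card Φ) < 2 * k + m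
        else 2 * (m * Fintype.card Φ) < 2 * k + 2 * m)) :
    α ∈ Submodule.span ℂ {ω | ∃ f : Fin k → Φ, ω = wedge (fun a => beta b (f a))} := by
  classical
  apply M7.mem_span b α
  · intro s hs0
    have hs : Function.Injective s := by
      by_contra hs
      apply hs0
      apply AlternatingMap.map_eq_zero_of_not_injective
      intro h
      exact hs (fun x y hxy => h (congrArg b hxy))
    apply M7.paired s hs
    intro x
    apply M7.count s hs _ hk x
    -- parity
    intro q i j hi
    by_contra hj
    apply hs0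
    show M7.val b α s = 0
    have hij : j ≠ i := by
      rintro rfl; exact hj hi
    -- the side of the odd site
    obtain ⟨ε, ⟨r₀, h0⟩, h1⟩ : ∃ ε, (∃ r₀, s r₀ = M7.dup (q, j) ε) ∧
        ∀ r, s r ≠ M7.dup (q, j) (!ε) := by
      by_cases ha : ∃ r, s r = M7.dup (q, j) false
      · refine ⟨false, ha, ?_⟩
        intro r hr
        exact hj ⟨fun _ => ⟨r, hr⟩, fun _ => ha⟩
      · by_cases hb : ∃ r, s r = M7.dup (q, j) true
        · refine ⟨true, hb, ?_⟩
          intro r hr
          exact ha ⟨r, hr⟩
        · exact absurd ⟨fun h => absurd h ha, fun h => absurd h hb⟩ hj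
    by_cases hf : ∃ r, s r = M7.dup (q, i) false
    · obtain ⟨r₁, h3⟩ := hf
      obtain ⟨r₂, h4⟩ := hi.mp ⟨r₁, h3⟩
      cases ε
      · exact M7.odd_full b R hR α hα s hs q j i hij false r₀ r₁ r₂ h0 h1 h3 h4
      · exact M7.odd_full b R hR α hα s hs q j i hij true r₀ r₂ r₁ h0 h1 h4 h3
    · have ht : ¬ ∃ r, s r = M7.dup (q, i) true := fun h => hf (hi.mpr h)
      push Not at hf ht
      refine M7.odd_empty b R hR α hα s hs q j i hij ε r₀ h0 h1 ?_
      intro r δ
      cases δ
      · exact hf r
      · exact ht r
  · intro p q hp hq h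
    exact M7.places b R hR α hα p q hp hq h

end Pool.Agent.Ball
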