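import Pool.Agent.Helper7.Generate

/-!
Ball quotient type, module M7: expansion of an alternating form supported on paired monomials.
-/

namespace Pool.Agent.Ball

open Module Equiv Pool.Agent.Helper7

/-- the pairing of a place in adapted coordinates -/
noncomputable def beta {Φ W : Type} [Fintype Φ] [DecidableEq Φ] [AddCommGroup W] [Module ℂ W]
    {m : ℕ} (b : Basis (Φ × Fin m × Bool) ℂ W) (s : Φ) : W →ₗ[ℂ] W →ₗ[ℂ] ℂ :=
  ∑ i : Fin m, (LinearMap.mul ℂ ℂ).compl₁₂ (b.coord (s, i, false)) (b.coord (s, i, true))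

namespace M7

/-- a site together with a side -/
def dup {Φ : Type} {m : ℕ} (x : Φ × Fin m) (ε : Bool) : Φ × Fin m × Bool := (x.1, x.2, ε)

lemma dup_inj {Φ : Type} {m : ℕ} {x y : Φ × Fin m} {ε δ : Bool} :
    dup x ε = dup y δ ↔ x = y ∧ ε = δ := by
  constructor
  · intro h
    simp only [dup, Prod.mk.injEq] at h
    exact ⟨Prod.ext h.1 h.2.1, h.2.2⟩
  · rintro ⟨rfl, rfl⟩; rfl

/-- the monomial attached to a family of sites -/
def tup {Φ : Type} {m k : ℕ} (p : Fin k → Φ × Fin m) (r : Fin (2 * k)) : Φ × Fin m × Bool :=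
  dup (p ⟨r.1 / 2, by omega⟩) (decide (r.1 % 2 = 1))

lemma tup_lo {Φ : Type} {m k : ℕ} (p : Fin k → Φ × Fin m) (a : Fin k) :
    tup p (lo a) = dup (p a) false := by
  have h1 : (⟨(lo a).1 / 2, by omega⟩ : Fin k) = a := Fin.ext (by simp only [lo]; omega)
  have h2 : decide ((lo a).1 % 2 = 1) = false := by simp only [lo]; simp
  simp only [tup]; rw [h1, h2]

lemma tup_hi {Φ : Type} {m k : ℕ} (p : Fin k → Φ × Fin m) (a : Fin k) :
    tup p (hi a) = dup (p a) true := by
  have h1 : (⟨(hi a).1 / 2, by omega⟩ : Fin k) = a := Fin.ext (by simp only [hi]; omega)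
  have h2 : decide ((hi a).1 % 2 = 1) = true := by simp only [hi]; simp
  simp only [tup]; rw [h1, h2]

lemma tup_injective {Φ : Type} {m k : ℕ} {p q : Fin k → Φ × Fin m} (h : tup p = tup q) :
    p = q := by
  funext a
  have := congrFun h (lo a)
  rw [tup_lo, tup_lo, dup_inj] at this
  exact this.1

section

variable {Φ W : Type} [Fintype Φ] [DecidableEq Φ] [AddCommGroup W] [Module ℂ W]
    {m k : ℕ} (b : Basis (Φ × Fin m × Bool) ℂ W)

lemma dualprod_basis {B : Type*} [DecidableEq B] (E : Basis B ℂ W) {n : ℕ} (t u : Fin n → B) :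
    dualprod E t (fun r => E (u r)) = if u = t then 1 else 0 := by
  rw [dualprod_apply]
  split_ifs with h
  · subst h
    simp
  · obtain ⟨r, hr⟩ := Function.ne_iff.mp h
    apply Finset.prod_eq_zero (Finset.mem_univ r)
    rw [Basis.coord_apply, Basis.repr_self, Finsupp.single_eq_of_ne]
    exact fun h => hr h.symm

/-- the pairs of a permutation and a family of sites matching a monomial -/
noncomputable def cnt (s : Fin (2 * k) → Φ × Fin m × Bool) : ℕ :=
  (Finset.univ.filter (fun x : Perm (Fin (2 * k)) × (Fin k → Φ × Fin m) =>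
    s ∘ x.1 = tup x.2)).card

lemma expand (α : W [⋀^Fin (2 * k)]→ₗ[ℂ] ℂ) (s : Fin (2 * k) → Φ × Fin m × Bool) :
    (∑ p : Fin k → Φ × Fin m, α (fun r => b (tup p r)) •
      MultilinearMap.alternatization (dualprod b (tup p))) (fun r => b (s r)) =
      (cnt s : ℂ) * α (fun r => b (s r)) := by
  rw [alt_sum_apply]
  have h1 : ∀ p : Fin k → Φ × Fin m, (α (fun r => b (tup p r)) •
      MultilinearMap.alternatization (dualprod b (tup p))) (fun r => b (s r)) =
      ∑ π : Perm (Fin (2 * k)), if s ∘ π = tup p then α (fun r => b (s r)) else 0 := by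
    intro p
    rw [AlternatingMap.smul_apply, MultilinearMap.alternatization_apply, Finset.smul_sum]
    refine Finset.sum_congr rfl (fun π _ => ?_)
    rw [Units.smul_def, zsmul_eq_mul]
    have h2 : (dualprod b (tup p)).domDomCongr π (fun r => b (s r)) =
        if s ∘ π = tup p then 1 else 0 := by
      rw [MultilinearMap.domDomCongr_apply]
      exact dualprod_basis b (tup p) (s ∘ π)
    rw [h2]
    split_ifs with h
    · rw [← h]
      have h3 : α (fun r => b ((s ∘ π) r)) =
          ((Equiv.Perm.sign π : ℤ) : ℂ) * α (fun r => b (s r)) := by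
        have := α.map_perm (fun r => b (s r)) π
        rw [Units.smul_def, zsmul_eq_mul] at this
        exact this
      rw [h3, smul_eq_mul, mul_one]
      have h4 : ((Equiv.Perm.sign π : ℤ) : ℂ) * ((Equiv.Perm.sign π : ℤ) : ℂ) = 1 := by
        rw [← Int.cast_mul, ← Units.val_mul, Int.units_mul_self]; simp
      linear_combination (α (fun r => b (s r))) * h4
    · simp
  rw [Finset.sum_congr rfl (fun p _ => h1 p), cnt, Finset.card_filter, Nat.cast_sum,
    Finset.sum_mul, ← Finset.univ_product_univ, Finset.sum_product_right]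
  refine Finset.sum_congr rfl (fun p _ => Finset.sum_congr rfl (fun π _ => ?_))
  split_ifs <;> simp

/-- the number of permutations preserving the pairs -/
noncomputable def nn (k : ℕ) : ℕ :=
  (Finset.univ.filter (fun π : Perm (Fin (2 * k)) =>
    ∀ a, ∃ a', π (lo a) = lo a' ∧ π (hi a) = hi a')).card

lemma nn_pos (k : ℕ) : 0 < nn k := by
  rw [nn, Finset.card_pos]
  refine ⟨1, ?_⟩
  rw [Finset.mem_filter]
  exact ⟨Finset.mem_univ _, fun a => ⟨a, rfl, rfl⟩⟩

lemma cnt_tup (p : Fin k → Φ × Fin m) (hp : Function.Injective p) (π₀ : Perm (Fin (2 * k)))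
    (s : Fin (2 * k) → Φ × Fin m × Bool) (hs : s ∘ π₀ = tup p) : cnt s = nn k := by
  have hs' : s = tup p ∘ π₀.symm := by
    rw [← hs, Function.comp_assoc]; simp
  rw [cnt, nn]
  refine Finset.card_bij (fun x _ => π₀⁻¹ * x.1) ?_ ?_ ?_
  · intro x hx
    rw [Finset.mem_filter] at hx ⊢
    refine ⟨Finset.mem_univ _, fun a => ?_⟩
    have h1 : ∀ r, tup p ((π₀⁻¹ * x.1) r) = tup x.2 r := by
      intro r
      rw [← hx.2, hs']
      rfl
    have h2 := h1 (lo a)
    have h3 := h1 (hi a)
    rw [tup_lo] at h2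
    rw [tup_hi] at h3
    obtain ⟨c, hc | hc⟩ := eq_lo_or_hi ((π₀⁻¹ * x.1) (lo a))
    · obtain ⟨d, hd | hd⟩ := eq_lo_or_hi ((π₀⁻¹ * x.1) (hi a))
      · rw [hd, tup_lo, dup_inj] at h3
        exact absurd h3.2 (by simp)
      · rw [hc, tup_lo, dup_inj] at h2
        rw [hd, tup_hi, dup_inj] at h3
        have : c = d := hp (h2.1.trans h3.1.symm)
        exact ⟨c, hc, by rw [hd, this]⟩
    · rw [hc, tup_hi, dup_inj] at h2
      exact absurd h2.2 (by simp)
  · intro x hx y hy hxy
    rw [Finset.mem_filter] at hx hy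
    have h1 : x.1 = y.1 := by
      simpa using hxy
    have h2 : x.2 = y.2 := by
      apply tup_injective
      rw [← hx.2, ← hy.2, h1]
    exact Prod.ext h1 h2
  · intro π hπ
    rw [Finset.mem_filter] at hπ
    choose g hg1 hg2 using hπ.2
    refine ⟨(π₀ * π, p ∘ g), ?_, ?_⟩
    · rw [Finset.mem_filter]
      refine ⟨Finset.mem_univ _, ?_⟩
      funext r
      rw [hs']
      show tup p (π₀.symm (π₀ (π r))) = _
      rw [Equiv.symm_apply_apply]
      obtain ⟨a, rfl | rfl⟩ := eq_lo_or_hi r
      · rw [hg1, tup_lo, tup_lo]; rfl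
      · rw [hg2, tup_hi, tup_hi]; rfl
    · simp [← mul_assoc]

/-- a form supported on paired monomials is a combination of elementary products -/
lemma expand_eq (α : W [⋀^Fin (2 * k)]→ₗ[ℂ] ℂ)
    (hα : ∀ s : Fin (2 * k) → Φ × Fin m × Bool, α (fun r => b (s r)) ≠ 0 →
      ∃ (p : Fin k → Φ × Fin m) (π : Perm (Fin (2 * k))), Function.Injective p ∧
        s ∘ π = tup p) :
    ∑ p : Fin k → Φ × Fin m, α (fun r => b (tup p r)) •
      MultilinearMap.alternatization (dualprod b (tup p)) = (nn k : ℂ) • α := by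
  apply AlternatingMap.coe_multilinearMap_injective
  apply Basis.ext_multilinear (fun _ => b)
  intro s
  show (∑ p : Fin k → Φ × Fin m, α (fun r => b (tup p r)) •
      MultilinearMap.alternatization (dualprod b (tup p))) (fun r => b (s r)) =
      ((nn k : ℂ) • α) (fun r => b (s r))
  rw [expand, AlternatingMap.smul_apply, smul_eq_mul]
  by_cases h : α (fun r => b (s r)) = 0
  · rw [h, mul_zero, mul_zero]
  · obtain ⟨p, π, hp, hs⟩ := hα s h
    rw [cnt_tup p hp π s hs]

omit [Fintype Φ] in
lemma alt_zero (p : Fin k → Φ × Fin m) (hp : ¬ Function.Injective p) :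
    MultilinearMap.alternatization (dualprod b (tup p)) = 0 := by
  apply AlternatingMap.coe_multilinearMap_injective
  apply Basis.ext_multilinear (fun _ => b)
  intro s
  show (MultilinearMap.alternatization (dualprod b (tup p))) (fun r => b (s r)) = 0
  by_cases hs : Function.Injective s
  · rw [MultilinearMap.alternatization_apply]
    apply Finset.sum_eq_zero
    intro π _
    rw [MultilinearMap.domDomCongr_apply]
    have := dualprod_basis b (tup p) (s ∘ π)
    rw [if_neg] at this
    · erw [this, smul_zero]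
    · intro h
      apply hp
      intro a a' haa
      have h1 : (s ∘ π) (lo a) = (s ∘ π) (lo a') := by
        rw [h, tup_lo, tup_lo, haa]
      exact lo_inj ((hs.comp π.injective) h1)
  · apply AlternatingMap.map_eq_zero_of_not_injective
    intro h
    exact hs (fun x y hxy => h (congrArg b hxy))

/-- the wedge of the pairings is the sum of the elementary products -/
lemma wedge_beta (f : Fin k → Φ) :
    wedge (fun a => beta b (f a)) =
      ∑ i : Fin k → Fin m, MultilinearMap.alternatization
        (dualprod b (tup (fun a => (f a, i a)))) := by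
  rw [wedge, ← map_sum]
  congr 1
  ext v
  rw [MultilinearMap.sum_apply]
  have h1 : ∀ i : Fin k → Fin m, dualprod b (tup (fun a => (f a, i a))) v =
      ∏ a, (b.coord (f a, i a, false) (v (lo a)) * b.coord (f a, i a, true) (v (hi a))) := by
    intro i
    rw [dualprod_eq_prodBilin]
    show ∏ a, coordTensor b _ _ (v (lo a)) (v (hi a)) = _
    refine Finset.prod_congr rfl (fun a _ => ?_)
    rw [tup_lo, tup_hi]
    rfl
  rw [Finset.sum_congr rfl (fun i _ => h1 i)]
  show ∏ a, beta b (f a) (v (lo a)) (v (hi a)) = _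
  have h2 : ∀ a, beta b (f a) (v (lo a)) (v (hi a)) =
      ∑ i : Fin m, b.coord (f a, i, false) (v (lo a)) * b.coord (f a, i, true) (v (hi a)) := by
    intro a
    rw [beta, LinearMap.sum_apply, LinearMap.sum_apply]
    rfl
  rw [Finset.prod_congr rfl (fun a _ => h2 a), Finset.prod_univ_sum, Fintype.piFinset_univ]

/-- the span of the wedges, from the symmetry of the coefficients -/
lemma mem_span (α : W [⋀^Fin (2 * k)]→ₗ[ℂ] ℂ)
    (hα : ∀ s : Fin (2 * k) → Φ × Fin m × Bool, α (fun r => b (s r)) ≠ 0 →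
      ∃ (p : Fin k → Φ × Fin m) (π : Perm (Fin (2 * k))), Function.Injective p ∧
        s ∘ π = tup p)
    (hsym : ∀ p q : Fin k → Φ × Fin m, Function.Injective p → Function.Injective q →
      (∀ a, (p a).1 = (q a).1) → α (fun r => b (tup p r)) = α (fun r => b (tup q r))) :
    α ∈ Submodule.span ℂ {ω | ∃ f : Fin k → Φ, ω = wedge (fun a => beta b (f a))} := by
  classical
  have h0 : (nn k : ℂ) ≠ 0 := Nat.cast_ne_zero.mpr (nn_pos k).ne'
  have h1 : α = (nn k : ℂ)⁻¹ • ∑ p : Fin k → Φ × Fin m, α (fun r => b (tup p r)) •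
      MultilinearMap.alternatization (dualprod b (tup p)) := by
    rw [expand_eq b α hα, smul_smul, inv_mul_cancel₀ h0, one_smul]
  have hc : ∀ f : Fin k → Φ, ∃ c : ℂ, ∀ p : Fin k → Φ × Fin m, Function.Injective p →
      (∀ a, (p a).1 = f a) → α (fun r => b (tup p r)) = c := by
    intro f
    by_cases h : ∃ p : Fin k → Φ × Fin m, Function.Injective p ∧ ∀ a, (p a).1 = f a
    · obtain ⟨p, hp, hpf⟩ := h
      exact ⟨α (fun r => b (tup p r)), fun q hq hqf =>
        hsym q p hq hp (fun a => by rw [hqf, hpf])⟩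
    · exact ⟨0, fun q hq hqf => absurd ⟨q, hq, hqf⟩ h⟩
  choose c hc using hc
  have h2 : ∀ (f : Fin k → Φ) (i : Fin k → Fin m),
      α (fun r => b (tup (fun a => (f a, i a)) r)) •
        MultilinearMap.alternatization (dualprod b (tup (fun a => (f a, i a)))) =
      c f • MultilinearMap.alternatization (dualprod b (tup (fun a => (f a, i a)))) := by
    intro f i
    by_cases h : Function.Injective (fun a => (f a, i a))
    · rw [hc f _ h (fun a => rfl)]
    · rw [alt_zero b _ h, smul_zero, smul_zero]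
  rw [h1]
  apply Submodule.smul_mem
  have h3 : ∑ p : Fin k → Φ × Fin m, α (fun r => b (tup p r)) •
      MultilinearMap.alternatization (dualprod b (tup p)) =
      ∑ f : Fin k → Φ, c f • wedge (fun a => beta b (f a)) := by
    rw [← Fintype.sum_equiv (Equiv.arrowProdEquivProdArrow (Fin k) (fun _ => Φ)
      (fun _ => Fin m)).symm (fun x => α (fun r => b (tup (fun a => (x.1 a, x.2 a)) r)) •
        MultilinearMap.alternatization (dualprod b (tup (fun a => (x.1 a, x.2 a))))) _
      (fun x => rfl), Fintype.sum_prod_type]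
    refine Finset.sum_congr rfl (fun f _ => ?_)
    rw [wedge_beta, Finset.smul_sum]
    exact Finset.sum_congr rfl (fun i _ => h2 f i)
  rw [h3]
  exact Submodule.sum_mem _ (fun f _ => Submodule.smul_mem _ _
    (Submodule.subset_span ⟨f, rfl⟩))

end

end M7

end Pool.Agent.Ball
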